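import Pool.Agent.E8helper49.DD.Stm

/-! Project DD (MP_bfbd14_co): existence and continuity of Maxwell liftings. -/

open Set

namespace Pool.Agent.E8helper96.DD

open Pool.Agent.E8helper49.DD

/-- twice the area of the triangle `(a, b, (X, Y))` -/
def arp (x y : Fin 12 → ℝ) (a b : Fin 12) (X Y : ℝ) : ℝ :=
  (x b - x a) * (Y - y a) - (X - x a) * (y b - y a)

/-- the affine function of the triangle `T` -/
noncomputable def Lam (c : Fin 20 → Fin 12 → Fin 12 → ℝ) (w : Fin 12 → Fin 12 → ℝ)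
    (x y : Fin 12 → ℝ) (T : Fin 20) (X Y : ℝ) : ℝ :=
  ∑ a, ∑ b, c T a b * (w a b * arp x y a b X Y)

theorem Lam_affine (c : Fin 20 → Fin 12 → Fin 12 → ℝ) (w : Fin 12 → Fin 12 → ℝ)
    (x y : Fin 12 → ℝ) (T : Fin 20) : ∃ A B C : ℝ, ∀ X Y, Lam c w x y T X Y = A * X + B * Y + C := by
  refine ⟨∑ a, ∑ b, c T a b * (w a b * (y a - y b)), ∑ a, ∑ b, c T a b * (w a b * (x b - x a)),
    ∑ a, ∑ b, c T a b * (w a b * (x a * y b - x b * y a)), fun X Y => ?_⟩
  unfold Lam arp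
  rw [Finset.sum_mul, Finset.sum_mul, ← Finset.sum_add_distrib, ← Finset.sum_add_distrib]
  refine Finset.sum_congr rfl fun a _ => ?_
  rw [Finset.sum_mul, Finset.sum_mul, ← Finset.sum_add_distrib, ← Finset.sum_add_distrib]
  refine Finset.sum_congr rfl fun b _ => ?_
  ring

/-- the first inner triangle at a vertex -/
def st : Fin 12 → Fin 5 := ![1, 0, 1, 0, 0, 0, 0, 0, 0, 0, 0, 0]

theorem st_edge : ∀ v, ∀ k : Fin 5, k ≠ 0 → (3 ≤ v ∨ k ≤ 3) → 3 ≤ v ∨ 3 ≤ nbr v (st v + k) := by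
  decide

theorem st_all : ∀ v i, lf v i ≠ 0 → ∃ k : Fin 5, i = st v + k ∧ (3 ≤ v ∨ k ≤ 3) := by decide

theorem inner_ne : ∀ v i, (3 ≤ v ∨ 3 ≤ nbr v i) → lf v i ≠ 0 ∧ lf v (i-1) ≠ 0 := by decide

theorem sub_one_add_one : ∀ i : Fin 5, i - 1 + 1 = i := by decide

theorem shift : ∀ i : Fin 5, i + 0 = i ∧ i + 1 - 1 = i + 0 ∧ i + 2 - 1 = i + 1 ∧
    i + 3 - 1 = i + 2 ∧ i + 4 - 1 = i + 3 := by decide

section
variable {c : Fin 20 → Fin 12 → Fin 12 → ℝ}
    (hc : ∀ J : Fin 12 → Fin 12 → ℝ,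
      (∀ u v, J u v = - J v u) → (∀ v, 3 ≤ v → ∑ i, J v (nbr v i) = 0) →
      ∀ v i, (3 ≤ v ∨ 3 ≤ nbr v i) →
        (∑ a, ∑ b, c (lf v i) a b * J a b) - (∑ a, ∑ b, c (lf v (i-1)) a b * J a b) = J v (nbr v i))
    {w : Fin 12 → Fin 12 → ℝ} {x y : Fin 12 → ℝ} (hw : Weights w) (hx : Harm w x) (hy : Harm w y)
include hc hw hx hy

theorem Lam_jump (X Y : ℝ) (v : Fin 12) (i : Fin 5) (hv : 3 ≤ v ∨ 3 ≤ nbr v i) :
    Lam c w x y (lf v i) X Y - Lam c w x y (lf v (i-1)) X Y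
      = w v (nbr v i) * arp x y v (nbr v i) X Y := by
  refine hc (fun a b => w a b * arp x y a b X Y) (fun u v => ?_) (fun v hv => ?_) v i hv
  · rw [hw.1 u v]
    unfold arp
    ring
  · have h1 := hx v hv
    have h2 := hy v hv
    calc ∑ i, w v (nbr v i) * arp x y v (nbr v i) X Y
        = (Y - y v) * ∑ i, w v (nbr v i) * (x (nbr v i) - x v)
          - (X - x v) * ∑ i, w v (nbr v i) * (y (nbr v i) - y v) := by
          rw [Finset.mul_sum, Finset.mul_sum, ← Finset.sum_sub_distrib]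
          refine Finset.sum_congr rfl fun i _ => ?_
          unfold arp
          ring
      _ = 0 := by rw [h1, h2]; ring

/-- the height of a vertex is independent of the triangle -/
theorem Lam_vertex (v : Fin 12) (i : Fin 5) (hi : lf v i ≠ 0) :
    Lam c w x y (lf v i) (x v) (y v) = Lam c w x y (lf v (st v)) (x v) (y v) := by
  have step : ∀ i, (3 ≤ v ∨ 3 ≤ nbr v i) →
      Lam c w x y (lf v i) (x v) (y v) = Lam c w x y (lf v (i-1)) (x v) (y v) := by
    intro i hi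
    have h := Lam_jump hc hw hx hy (x v) (y v) v i hi
    have h0 : arp x y v (nbr v i) (x v) (y v) = 0 := by unfold arp; ring
    rw [h0, mul_zero] at h
    linarith
  obtain ⟨e0, e1, e2, e3, e4'⟩ := shift (st v)
  obtain ⟨k, rfl, hk⟩ := st_all v i hi
  have s1 : (3 ≤ v ∨ (1 : Fin 5) ≤ 3) → Lam c w x y (lf v (st v + 1)) (x v) (y v)
      = Lam c w x y (lf v (st v + 0)) (x v) (y v) := fun h => by
    rw [step _ (st_edge v 1 (by decide) h), e1]
  have s2 : (3 ≤ v ∨ (2 : Fin 5) ≤ 3) → Lam c w x y (lf v (st v + 2)) (x v) (y v)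
      = Lam c w x y (lf v (st v + 1)) (x v) (y v) := fun h => by
    rw [step _ (st_edge v 2 (by decide) h), e2]
  have s3 : (3 ≤ v ∨ (3 : Fin 5) ≤ 3) → Lam c w x y (lf v (st v + 3)) (x v) (y v)
      = Lam c w x y (lf v (st v + 2)) (x v) (y v) := fun h => by
    rw [step _ (st_edge v 3 (by decide) h), e3]
  have s4 : (3 ≤ v ∨ (4 : Fin 5) ≤ 3) → Lam c w x y (lf v (st v + 4)) (x v) (y v)
      = Lam c w x y (lf v (st v + 3)) (x v) (y v) := fun h => by
    rw [step _ (st_edge v 4 (by decide) h), e4']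
  have t1 := s1 (Or.inr (by decide))
  have t2 := s2 (Or.inr (by decide))
  have t3 := s3 (Or.inr (by decide))
  rw [e0] at t1
  fin_cases k
  · show Lam c w x y (lf v (st v + 0)) (x v) (y v) = _
    rw [e0]
  · exact t1
  · exact t2.trans t1
  · exact t3.trans (t2.trans t1)
  · exact (s4 hk).trans (t3.trans (t2.trans t1))

theorem Lam_face (T : Fin 20) (hT : T ≠ 0) (r : Fin 3) :
    Lam c w x y (lf (face T r) (st (face T r))) (x (face T r)) (y (face T r))
      = Lam c w x y T (x (face T r)) (y (face T r)) := by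
  obtain ⟨i, h1, -, -⟩ := face_spec T r
  have h := Lam_vertex hc hw hx hy (face T r) i (by rw [h1]; exact hT)
  rw [h1] at h
  exact h.symm

theorem Lam_Jump : Jump w x y (fun v => Lam c w x y (lf v (st v)) (x v) (y v)) := by
  intro v i hv
  obtain ⟨hT, hT'⟩ := inner_ne v i hv
  obtain ⟨r, r0, r1, r2⟩ := lf_spec v (i-1)
  rw [sub_one_add_one] at r2
  obtain ⟨q, q0, q1, q2⟩ := lf_spec v i
  have A0 := Lam_face hc hw hx hy (lf v (i-1)) hT' r
  have A1 := Lam_face hc hw hx hy (lf v (i-1)) hT' (r+1)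
  have A2 := Lam_face hc hw hx hy (lf v (i-1)) hT' (r+2)
  have B2 := Lam_face hc hw hx hy (lf v i) hT (q+2)
  rw [r0] at A0
  rw [r1] at A1
  rw [r2] at A2
  rw [q2] at B2
  have hj := Lam_jump hc hw hx hy (x (nbr v (i+1))) (y (nbr v (i+1))) v i hv
  obtain ⟨A, B, C, hA⟩ := Lam_affine c w x y (lf v (i-1))
  rw [hA] at A0 A1 A2 hj
  have hB : Lam c w x y (lf (nbr v (i+1)) (st (nbr v (i+1)))) (x (nbr v (i+1))) (y (nbr v (i+1)))
      = A * x (nbr v (i+1)) + B * y (nbr v (i+1)) + C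
        + w v (nbr v i) * arp x y v (nbr v i) (x (nbr v (i+1))) (y (nbr v (i+1))) := by
    rw [B2]; linarith
  simp only [vol]
  rw [A0, A1, A2, hB]
  unfold ar arp
  ring

end

theorem vol_sub_affine (x y z : Fin 12 → ℝ) (A B C : ℝ) (a b c d : Fin 12) :
    vol x y (fun v => z v - (C + A * x v + B * y v)) a b c d = vol x y z a b c d := by
  unfold vol
  ring

theorem t_MAX (h : S_COC) : S_MAX := by
  obtain ⟨c, hc⟩ := h
  intro w x y cw cx cy H
  set z' : ℝ → Fin 12 → ℝ := fun t v =>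
    Lam c (w t) (x t) (y t) (lf v (st v)) (x t v) (y t v) with hz'
  have cz' : ∀ v, ContinuousOn (fun t => z' t v) (Icc 0 1) := by
    intro v
    simp only [hz', Lam, arp]
    refine continuousOn_finsetSum _ fun a _ => continuousOn_finsetSum _ fun b _ => ?_
    have h1 := cw a b
    have h2 := cx a
    have h3 := cx b
    have h4 := cy a
    have h5 := cy b
    have h6 := cx v
    have h7 := cy v
    fun_prop
  refine ⟨fun t v => z' t v - (z' t 0 + (z' t 2 - z' t 0) * x t v + (z' t 1 - z' t 0) * y t v),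
    fun v => ?_, fun t ht => ?_⟩
  · have h1 := cz' v
    have h2 := cz' 0
    have h3 := cz' 1
    have h4 := cz' 2
    have h5 := cx v
    have h6 := cy v
    fun_prop
  · obtain ⟨hw, hO, -, hx, hy⟩ := H t ht
    obtain ⟨o1, o2, o3, o4, o5, o6⟩ := hO
    refine ⟨⟨?_, ?_, ?_⟩, ?_⟩
    · simp only [o1, o2]; ring
    · simp only [o3, o4]; ring
    · simp only [o5, o6]; ring
    · intro v i hv
      have h := Lam_Jump hc hw hx hy v i hv
      rw [vol_sub_affine]
      exact h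

end Pool.Agent.E8helper96.DD
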